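import Pool.Agent.Q283.FG.Stm1

/-! Project FG (helper283), job HIL (helper13): the Hilbert symbols for all number fields
(the proof follows that of `Q162.LK.hs2` by helper162, with the real places and the symmetry for `p = 2`). -/

set_option autoImplicit false
set_option linter.unusedSectionVars false
set_option linter.deprecated false

namespace Pool.Agent.Q13.FG

open NumberField IsDedekindDomain Filter Topology Finset
open Pool.Agent.Q7.LK
open Pool.Agent.Q283.FG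
open scoped Classical

section
variable {F : Type} [Field F] [NumberField F]

/-- a nonzero number is a unit at almost all primes -/
lemma fin_val {c : F} (hc : c ≠ 0) :
    {v : HeightOneSpectrum (𝓞 F) | v.valuation F c ≠ 1}.Finite := by
  have h1 := HeightOneSpectrum.Support.finite (𝓞 F) c
  have h2 := HeightOneSpectrum.Support.finite (𝓞 F) c⁻¹
  refine (h1.union h2).subset ?_
  intro v hv
  have hv0 : v.valuation F c ≠ 0 := (Valuation.ne_zero_iff _).2 hc
  rcases lt_or_gt_of_ne hv with h | h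
  · right
    change 1 < v.valuation F c⁻¹
    rw [map_inv₀]
    exact (one_lt_inv₀ (zero_lt_iff.2 hv0)).2 h
  · left
    exact h

lemma fin_vl {c : F} (hc : c ≠ 0) :
    {v : HeightOneSpectrum (𝓞 F) | vl 2 v c ≠ 0}.Finite := by
  refine (fin_val hc).subset ?_
  intro v hv h
  apply hv
  unfold vl
  rw [h, WithZero.log_one]
  simp

lemma fin_dp : {v : HeightOneSpectrum (𝓞 F) | Dp 2 v}.Finite := by
  have hp' : ((2 : ℕ) : F) ≠ 0 := Nat.cast_ne_zero.2 two_ne_zero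
  refine (fin_val hp').subset ?_
  intro v hv h
  have h1 : (v.valuation F (algebraMap (𝓞 F) F ((2 : ℕ) : 𝓞 F))) = 1 := by
    rw [map_natCast]; exact h
  exact (HeightOneSpectrum.valuation_eq_one_iff_notMem (K := F) (v := v)).mp h1 hv

lemma exp_lt_of_ne {x : WithZero (Multiplicative ℤ)} (hx : x ≠ 0) : ∃ n : ℕ, ∀ m : ℕ, n ≤ m →
    WithZero.exp (-(m : ℤ)) < x := by
  refine ⟨(1 - WithZero.log x).toNat, fun m hm => ?_⟩
  rw [← WithZero.exp_log hx, WithZero.exp_lt_exp]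
  omega

/-- an exponent which is large enough for all the places of a finite set -/
lemma exists_exp (R : Finset (HeightOneSpectrum (𝓞 F))) :
    ∃ k : ℕ, ∀ w ∈ R, WithZero.exp (-(k : ℤ)) < w.valuation F (((2 : ℕ) : F) ^ 2) := by
  have h2 : (((2 : ℕ) : F) ^ 2) ≠ 0 := pow_ne_zero _ (Nat.cast_ne_zero.2 two_ne_zero)
  choose N hN using fun w : HeightOneSpectrum (𝓞 F) =>
    exp_lt_of_ne ((Valuation.ne_zero_iff (w.valuation F)).2 h2)
  refine ⟨∑ w ∈ R, N w, fun w hw => hN w _ ?_⟩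
  exact Finset.single_le_sum (f := N) (fun _ _ => Nat.zero_le _) hw

/-- a number close to `1` is a local square -/
lemma lpw_of_near (hB : S_BAS) {v : HeightOneSpectrum (𝓞 F)} {k : ℕ} {e : F}
    (hk : WithZero.exp (-(k : ℤ)) < v.valuation F (((2 : ℕ) : F) ^ 2))
    (h : v.valuation F (e - 1) < WithZero.exp (-(k : ℤ))) : Lpw 2 v e := by
  refine (hB 2 F v).2.2.2.2.2.1 e 1 ?_
  rw [one_pow, mul_one]
  exact h.trans hk

/-- approximation at one finite place -/
lemma apxF (hB : S_BAS) (hA : S_APX) (R : Finset (HeightOneSpectrum (𝓞 F)))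
    (v₀ : HeightOneSpectrum (𝓞 F)) {a : F} (ha : a ≠ 0) :
    ∃ e : F, e ≠ 0 ∧ Lpw 2 v₀ (e / a) ∧ (∀ w ∈ R, w ≠ v₀ → Lpw 2 w e) ∧ ∀ φ : F →+* ℝ, 0 < φ e := by
  obtain ⟨k, hk⟩ := exists_exp (insert v₀ R)
  obtain ⟨e, he0, he1, he2⟩ := hA F (insert v₀ R) k (fun w => if w = v₀ then a else 1)
    (fun _ => 1) (fun w => by split_ifs <;> simp [ha]) (fun _ => one_ne_zero)
  refine ⟨e, he0, ?_, ?_, ?_⟩
  · have h := he1 v₀ (Finset.mem_insert_self _ _)
    rw [if_pos rfl] at h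
    exact lpw_of_near hB (hk v₀ (Finset.mem_insert_self _ _)) h
  · intro w hw hne
    have h := he1 w (Finset.mem_insert_of_mem hw)
    rw [if_neg hne, div_one] at h
    exact lpw_of_near hB (hk w (Finset.mem_insert_of_mem hw)) h
  · intro φ
    have h := he2 φ
    rwa [mul_one] at h

/-- approximation at one real place -/
lemma apxR (hB : S_BAS) (hA : S_APX) (R : Finset (HeightOneSpectrum (𝓞 F)))
    (φ₀ : F →+* ℝ) {a : F} (ha : a ≠ 0) :
    ∃ e : F, e ≠ 0 ∧ (∀ w ∈ R, Lpw 2 w e) ∧ 0 < φ₀ (e * a) ∧ ∀ φ : F →+* ℝ, φ ≠ φ₀ → 0 < φ e := by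
  obtain ⟨k, hk⟩ := exists_exp R
  obtain ⟨e, he0, he1, he2⟩ := hA F R k (fun _ => 1)
    (fun φ => if φ = φ₀ then a else 1) (fun _ => one_ne_zero) (fun φ => by split_ifs <;> simp [ha])
  refine ⟨e, he0, ?_, ?_, ?_⟩
  · intro w hw
    have h := he1 w hw
    rw [div_one] at h
    exact lpw_of_near hB (hk w hw) h
  · have h := he2 φ₀
    rwa [if_pos rfl] at h
  · intro φ hne
    have h := he2 φ
    rwa [if_neg hne, mul_one] at h

/-- a family with sum zero which is trivial at almost all places is trivial -/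
lemma uniq2 (hB : S_BAS) (hA : S_APX) {δ : HeightOneSpectrum (𝓞 F) → F → ZMod 2}
    {ε : (F →+* ℝ) → F → ZMod 2}
    (mul : ∀ v a b, a ≠ 0 → b ≠ 0 → δ v (a * b) = δ v a + δ v b)
    (rmul : ∀ φ a b, a ≠ 0 → b ≠ 0 → ε φ (a * b) = ε φ a + ε φ b)
    (sum : ∀ a, a ≠ 0 → ∑ᶠ v, δ v a + ∑ᶠ φ, ε φ a = 0)
    (pw : ∀ v a, Lpw 2 v a → δ v a = 0) (ps : ∀ (φ : F →+* ℝ) (a : F), 0 < φ a → ε φ a = 0)
    {R : Set (HeightOneSpectrum (𝓞 F))} (hR : R.Finite)
    (out : ∀ v, v ∉ R → ∀ a, a ≠ 0 → δ v a = 0) :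
    (∀ v a, a ≠ 0 → δ v a = 0) ∧ ∀ φ a, a ≠ 0 → ε φ a = 0 := by
  constructor
  · intro v a ha
    by_cases hv : v ∈ R
    swap
    · exact out v hv a ha
    obtain ⟨e, he0, he1, he2, he3⟩ := apxF hB hA hR.toFinset v ha
    have h1 : ∑ᶠ w, δ w e = δ v e := by
      refine finsum_eq_single _ v fun w hw => ?_
      by_cases hwR : w ∈ R
      · exact pw w e (he2 w (hR.mem_toFinset.2 hwR) hw)
      · exact out w hwR e he0
    have h4 : ∑ᶠ φ, ε φ e = 0 := by
      rw [finsum_congr (fun φ => ps φ e (he3 φ)), finsum_zero]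
    have h5 := sum e he0
    rw [h1, h4, add_zero] at h5
    have h2 : e = e / a * a := by field_simp
    have h3 : δ v e = δ v (e / a) + δ v a := by
      conv_lhs => rw [h2]
      exact mul v _ _ (div_ne_zero he0 ha) ha
    rw [h5, pw v _ he1, zero_add] at h3
    exact h3.symm
  · intro φ₀ a ha
    obtain ⟨e, he0, he1, he2, he3⟩ := apxR hB hA hR.toFinset φ₀ ha
    have h1 : ∑ᶠ w, δ w e = 0 := by
      rw [finsum_congr (g := fun _ => (0 : ZMod 2)), finsum_zero]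
      intro w
      by_cases hwR : w ∈ R
      · exact pw w e (he1 w (hR.mem_toFinset.2 hwR))
      · exact out w hwR e he0
    have h4 : ∑ᶠ φ, ε φ e = ε φ₀ e :=
      finsum_eq_single _ φ₀ fun φ hφ => ps φ e (he3 φ hφ)
    have h5 := sum e he0
    rw [h1, h4, zero_add] at h5
    have h6 := rmul φ₀ e a he0 ha
    rw [ps φ₀ _ he2, h5, zero_add] at h6
    exact h6.symm

end

lemma z2_eq (x y : ZMod 2) (h : x + y = 0) : x = y := by
  revert x y; decide

lemma z2_self (x : ZMod 2) : x + x = 0 := by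
  revert x; decide

/-- JOB HIL -/
theorem hil (hBAS : Pool.Agent.Q7.LK.S_BAS) (hAPX : Pool.Agent.Q283.FG.S_APX)
    (hHS1 : Pool.Agent.Q283.FG.S_HS1) : Pool.Agent.Q283.FG.S_HIL := by
  intro F _ _ ζ hζ
  choose! τ σ hτ using hHS1 F ζ hζ
  have mul : ∀ v a b c, a ≠ 0 → b ≠ 0 → c ≠ 0 → τ c v (a * b) = τ c v a + τ c v b :=
    fun v a b c ha hb hc => (hτ c hc).1 v a b ha hb
  have rmul : ∀ φ a b c, a ≠ 0 → b ≠ 0 → c ≠ 0 → σ c φ (a * b) = σ c φ a + σ c φ b :=
    fun φ a b c ha hb hc => (hτ c hc).2.1 φ a b ha hb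
  have sum : ∀ a c, a ≠ 0 → c ≠ 0 → {v | τ c v a ≠ 0}.Finite ∧
      ∑ᶠ v, τ c v a + ∑ᶠ φ, σ c φ a = 0 :=
    fun a c ha hc => (hτ c hc).2.2.1 a ha
  have pw : ∀ v a c, Lpw 2 v a → c ≠ 0 → τ c v a = 0 :=
    fun v a c ha hc => (hτ c hc).2.2.2.1 v a ha
  have ps : ∀ (φ : F →+* ℝ) (a c : F), 0 < φ a → c ≠ 0 → σ c φ a = 0 :=
    fun φ a c ha hc => (hτ c hc).2.2.2.2.1 φ a ha
  have unr : ∀ v, ¬ Dp 2 v → ∀ c, c ≠ 0 → vl 2 v c = 0 → ∀ a, a ≠ 0 →
      τ c v a = vl 2 v a * sy 2 ζ v c :=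
    fun v hv c hc hvc a ha => (hτ c hc).2.2.2.2.2.1 v hv hvc a ha
  have nrm : ∀ c, c ≠ 0 → ∀ x z : F, x ^ 2 - c * z ^ 2 ≠ 0 →
      (∀ v, τ c v (x ^ 2 - c * z ^ 2) = 0) ∧ ∀ φ, σ c φ (x ^ 2 - c * z ^ 2) = 0 :=
    fun c hc => (hτ c hc).2.2.2.2.2.2
  -- additivity in the second variable
  have mulc : ∀ b c, b ≠ 0 → c ≠ 0 → (∀ v a, a ≠ 0 → τ (b * c) v a = τ b v a + τ c v a) ∧
      ∀ φ a, a ≠ 0 → σ (b * c) φ a = σ b φ a + σ c φ a := by
    intro b c hb hc
    have hbc : b * c ≠ 0 := mul_ne_zero hb hc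
    have key := uniq2 hBAS hAPX (δ := fun v a => τ (b * c) v a - (τ b v a + τ c v a))
      (ε := fun φ a => σ (b * c) φ a - (σ b φ a + σ c φ a))
      (R := {v | Dp 2 v} ∪ ({v | vl 2 v b ≠ 0} ∪ {v | vl 2 v c ≠ 0})) ?_ ?_ ?_ ?_ ?_ ?_ ?_
    · exact ⟨fun v a ha => sub_eq_zero.1 (key.1 v a ha), fun φ a ha => sub_eq_zero.1 (key.2 φ a ha)⟩
    · intro v a a' ha ha'
      rw [mul v a a' _ ha ha' hbc, mul v a a' _ ha ha' hb, mul v a a' _ ha ha' hc]
      ring
    · intro v a a' ha ha'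
      rw [rmul v a a' _ ha ha' hbc, rmul v a a' _ ha ha' hb, rmul v a a' _ ha ha' hc]
      ring
    · intro a ha
      have f1 := sum a (b * c) ha hbc
      have f2 := sum a b ha hb
      have f3 := sum a c ha hc
      have f23 : (Function.support fun v => τ b v a + τ c v a).Finite :=
        (f2.1.union f3.1).subset (Function.support_add _ _)
      have e1 : ∑ᶠ v, (τ (b * c) v a - (τ b v a + τ c v a)) =
          ∑ᶠ v, τ (b * c) v a - (∑ᶠ v, τ b v a + ∑ᶠ v, τ c v a) := by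
        rw [finsum_sub_distrib f1.1 f23, finsum_add_distrib f2.1 f3.1]
      have e2 : ∑ᶠ φ, (σ (b * c) φ a - (σ b φ a + σ c φ a)) =
          ∑ᶠ φ, σ (b * c) φ a - (∑ᶠ φ, σ b φ a + ∑ᶠ φ, σ c φ a) := by
        rw [finsum_sub_distrib (Set.toFinite _) (Set.toFinite _),
          finsum_add_distrib (Set.toFinite _) (Set.toFinite _)]
      change ∑ᶠ v, (τ (b * c) v a - (τ b v a + τ c v a)) +
        ∑ᶠ φ, (σ (b * c) φ a - (σ b φ a + σ c φ a)) = 0
      rw [e1, e2]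
      linear_combination f1.2 - f2.2 - f3.2
    · intro v a ha
      rw [pw v a _ ha hbc, pw v a _ ha hb, pw v a _ ha hc]
      ring
    · intro φ a ha
      rw [ps φ a _ ha hbc, ps φ a _ ha hb, ps φ a _ ha hc]
      ring
    · exact fin_dp.union ((fin_vl hb).union (fin_vl hc))
    · intro v hv a ha
      simp only [Set.mem_union, Set.mem_setOf_eq, not_or, not_not] at hv
      obtain ⟨hv1, hv2, hv3⟩ := hv
      have hv4 : vl 2 v (b * c) = 0 := by
        rw [(hBAS 2 F v).2.2.2.2.1 b c hb hc, hv2, hv3, add_zero]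
      have h5 := ((hBAS 2 F v).2.2.2.2.2.2 hv1 ζ hζ).2.2.1 b c hb hc hv2 hv3
      rw [unr v hv1 _ hbc hv4 a ha, unr v hv1 _ hb hv2 a ha, unr v hv1 _ hc hv3 a ha, h5]
      ring
  have nega : ∀ a : F, (0 : F) ^ 2 - a * 1 ^ 2 = -a := fun a => by ring
  have diag : ∀ v a, a ≠ 0 → τ a v (-a) = 0 := by
    intro v a ha
    have h := (nrm a ha 0 1 (by rw [nega]; exact neg_ne_zero.2 ha)).1 v
    rwa [nega] at h
  have rdiag : ∀ φ a, a ≠ 0 → σ a φ (-a) = 0 := by
    intro φ a ha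
    have h := (nrm a ha 0 1 (by rw [nega]; exact neg_ne_zero.2 ha)).2 φ
    rwa [nega] at h
  have sym : ∀ v a c, a ≠ 0 → c ≠ 0 → τ c v a = τ a v c := by
    intro v a c ha hc
    have hac : a * c ≠ 0 := mul_ne_zero ha hc
    have h := diag v (a * c) hac
    rw [(mulc a c ha hc).1 v _ (neg_ne_zero.2 hac)] at h
    have e1 : τ a v (-(a * c)) = τ a v c := by
      have e : -(a * c) = -a * c := by ring
      rw [e, mul v (-a) c a (neg_ne_zero.2 ha) hc ha, diag v a ha, zero_add]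
    have e2 : τ c v (-(a * c)) = τ c v a := by
      have e : -(a * c) = -c * a := by ring
      rw [e, mul v (-c) a c (neg_ne_zero.2 hc) ha hc, diag v c hc, zero_add]
    rw [e1, e2] at h
    exact (z2_eq _ _ h).symm
  have rsym : ∀ φ a c, a ≠ 0 → c ≠ 0 → σ c φ a = σ a φ c := by
    intro v a c ha hc
    have hac : a * c ≠ 0 := mul_ne_zero ha hc
    have h := rdiag v (a * c) hac
    rw [(mulc a c ha hc).2 v _ (neg_ne_zero.2 hac)] at h
    have e1 : σ a v (-(a * c)) = σ a v c := by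
      have e : -(a * c) = -a * c := by ring
      rw [e, rmul v (-a) c a (neg_ne_zero.2 ha) hc ha, rdiag v a ha, zero_add]
    have e2 : σ c v (-(a * c)) = σ c v a := by
      have e : -(a * c) = -c * a := by ring
      rw [e, rmul v (-c) a c (neg_ne_zero.2 hc) ha hc, rdiag v c hc, zero_add]
    rw [e1, e2] at h
    exact (z2_eq _ _ h).symm
  exact ⟨fun v a c => τ c v a, fun φ a c => σ c φ a,
    { mul := mul
      sym := sym
      pow := pw
      unr := unr
      nrm := fun v a c x z ha hc h => by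
        subst h
        exact (nrm c hc x z ha).1 v
      rmul := rmul
      rsym := rsym
      rpos := ps
      sum := sum }⟩

end Pool.Agent.Q13.FG
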